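import Pool.Agent.Lib.MP_263241_an.WZ
import Pool.Agent.Lib.MP_263241_an.XZ

/-! The radial masa and the generator masa of `L F₂` are conjugate by an automorphism. -/

namespace Pool.Agent.Results.MP_263241_an.Full

open Pool.Agent.Lib.MP_263241_an

/-- `f` restricts to a bijection from `S` onto `T` that preserves sums, products, complex scalar
multiples and adjoints. -/
def IsStarIso {R : Type} [Ring R] [Star R] [Module ℂ R] (S T : Set R) (f : R → R) : Prop :=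
  Set.BijOn f S T ∧ ∀ x ∈ S, ∀ y ∈ S, ∀ c : ℂ, f (x + y) = f x + f y ∧ f (x * y) = f x * f y ∧
    f (c • x) = c • f x ∧ f (star x) = star (f x)

theorem iso_of {R N N' : Type} [Ring R] [Star R] [Algebra ℂ R] [Semiring N] [Star N] [Algebra ℂ N]
    [Semiring N'] [Star N'] [Algebra ℂ N'] (θ : N ≃⋆ₐ[ℂ] N') (j : N →⋆ₐ[ℂ] R) (j' : N' →⋆ₐ[ℂ] R)
    (hj : Function.Injective j) (hj' : Function.Injective j') {S T : Set R} (hS : S = Set.range j)
    (hT : T = Set.range j') : ∃ f, IsStarIso S T f ∧ ∀ x : N, f (j x) = j' (θ x) := by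
  have h := hj.extend_apply (fun x => j' (θ x)) id
  subst hS hT
  refine ⟨_, ⟨⟨?_, ?_, ?_⟩, ?_⟩, h⟩
  · rintro _ ⟨x, rfl⟩
    exact ⟨_, (h x).symm⟩
  · rintro _ ⟨x, rfl⟩ _ ⟨y, rfl⟩ h1
    rw [EquivLike.injective θ (hj' ((h x).symm.trans (h1.trans (h y))))]
  · rintro _ ⟨y, rfl⟩
    exact ⟨_, ⟨θ.symm y, rfl⟩, (h _).trans (by rw [θ.apply_symm_apply])⟩
  · rintro _ ⟨x, rfl⟩ _ ⟨y, rfl⟩ c
    simp only [← map_add, ← map_mul, ← map_smul, ← map_star, h, and_self]

theorem cc_iff {R R' : Type} [Ring R] [StarRing R] [Algebra ℂ R] [StarModule ℂ R] [Ring R']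
    [StarRing R'] [Algebra ℂ R'] [StarModule ℂ R'] (Φ : R' ≃⋆ₐ[ℂ] R) {S : Set R'} {S' : Set R}
    (e : S' = Φ '' S) (hS : ∀ y ∈ S.centralizer, ∀ s ∈ S, star s * y = y * star s) (x : R') :
    Φ x ∈ S'.centralizer.centralizer ↔
      x ∈ StarSubalgebra.centralizer ℂ (StarSubalgebra.centralizer ℂ S : Set R') := by
  subst e
  rw [mem_cc]
  constructor
  · refine fun h y hy => EquivLike.injective Φ ?_
    rw [map_mul, map_mul]
    refine h _ ?_
    rintro _ ⟨s, hs, rfl⟩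
    rw [← map_mul, ← map_mul, ((StarSubalgebra.mem_centralizer_iff ℂ).1 hy s hs).1]
  · intro h y hy
    obtain ⟨y, rfl⟩ := EquivLike.surjective Φ y
    have : y ∈ S.centralizer := fun s hs => EquivLike.injective Φ (by
      rw [map_mul, map_mul]; exact hy _ ⟨s, hs, rfl⟩)
    rw [← map_mul, ← map_mul, h y ((StarSubalgebra.mem_centralizer_iff ℂ).2 fun s hs =>
      ⟨this s hs, hS y this s hs⟩)]

theorem result {H : Type} [NormedAddCommGroup H] [InnerProductSpace ℂ H] [CompleteSpace H]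
    (δ : HilbertBasis (FreeGroup (Fin 2)) ℂ H) (u : FreeGroup (Fin 2) → H →L[ℂ] H)
    (hu : ∀ g h, u g (δ h) = δ (g * h)) (a b : H →L[ℂ] H) (ha : a = u (FreeGroup.of 0))
    (hb : b = u (FreeGroup.of 1)) (M A B : Set (H →L[ℂ] H))
    (hM : M = (Set.range u).centralizer.centralizer)
    (hA : A = ({a} : Set (H →L[ℂ] H)).centralizer.centralizer)
    (hB : B = ({a + star a + b + star b} : Set (H →L[ℂ] H)).centralizer.centralizer) :
    ∃ θ : (H →L[ℂ] H) → H →L[ℂ] H, IsStarIso M M θ ∧ θ '' B = A := by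
  have hΦ : ∃ Φ : (L2 F2 →L[ℂ] L2 F2) ≃⋆ₐ[ℂ] (H →L[ℂ] H), IsL fun g => Φ.symm (u g) :=
    ⟨δ.repr.symm.conjStarAlgEquiv, fun g h => by
      change δ.repr (u g (δ.repr.symm _)) = _
      rw [δ.repr_symm_single, hu, δ.repr_self]⟩
  obtain ⟨Φ, hv⟩ := hΦ
  have hv' : ∃ v, IsL v ∧ ∀ g, u g = Φ (v g) := ⟨_, hv, fun g => (Φ.apply_symm_apply _).symm⟩
  obtain ⟨v, hv, uv⟩ := hv'
  have k0 := hv.reg.fc hv.tau_one (hv.reg.exists_complement hv.tau_one)
  obtain ⟨ψ, p1, p2, p3⟩ := k0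
  have k1 := final_of hv p1 p2
  obtain ⟨θ, n3⟩ := k1
  have p4 : ∀ s : MM v, hv.tw.gen {1, (4⁻¹ : ℂ) • s} = hv.tw.gen {1, s} := fun s => by
    refine Set.Subset.antisymm ((TW.gen_w _).gen_le ?_) ((TW.gen_w _).gen_le ?_)
    · rintro _ (rfl | rfl)
      exacts [TW.sub_gen (.inl rfl), TW.Gen.smul _ (.base (.inr rfl))]
    · rintro _ (rfl | h)
      · exact TW.sub_gen (.inl rfl)
      · have := TW.Gen.smul (T := hv.tw) (S := {1, (4⁻¹ : ℂ) • s}) 4 (.base (.inr rfl))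
        rw [smul_smul, mul_inv_cancel₀ (by norm_num), one_smul] at this
        exact h ▸ this
  rw [p3, hh, p4] at n3
  have hj : ∃ j : MM v →⋆ₐ[ℂ] H →L[ℂ] H, ∀ x, j x = Φ x.1 :=
    ⟨(Φ : _ →⋆ₐ[ℂ] _).comp (MM v).subtype, fun _ => rfl⟩
  obtain ⟨j, hj⟩ := hj
  have ji : Function.Injective j := fun x y h =>
    Subtype.ext (EquivLike.injective Φ (by rwa [hj, hj] at h))
  have jl : ∀ g, u g = j (lam v g) := fun g => (uv g).trans (hj (lam v g)).symm
  have im : ∀ (s : MM v) (C : Set (H →L[ℂ] H)), C = ({j s} : Set _).centralizer.centralizer →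
      (∀ y, s.1 * y = y * s.1 → star s.1 * y = y * star s.1) → C = j '' hv.tw.gen {1, s} := by
    rintro s _ rfl hs
    ext x
    obtain ⟨x, rfl⟩ := EquivLike.surjective Φ x
    rw [cc_iff Φ (S := {s.1}) (by rw [Set.image_singleton, hj])
      (by rintro y hy _ rfl; exact hs y (hy _ rfl))]
    have g := fun x => hv.mem_gen (S := {s}) (x := x)
    rw [Set.image_singleton] at g
    exact ⟨fun h => ⟨⟨x, cc_le s h⟩, (g _).2 h, hj _⟩, fun ⟨y, h1, h2⟩ => by
      rw [hj] at h2; exact EquivLike.injective Φ h2 ▸ (g _).1 h1⟩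
  have eM : M = Set.range j := by
    subst hM
    ext x
    obtain ⟨x, rfl⟩ := EquivLike.surjective Φ x
    rw [cc_iff Φ (S := Set.range v) (by rw [← Set.range_comp]; exact congrArg _ (funext uv))
      (by rintro y hy _ ⟨g, rfl⟩; rw [← hv.inv]; exact hy _ ⟨_, rfl⟩)]
    exact ⟨fun h => ⟨⟨x, h⟩, hj _⟩, fun ⟨y, h2⟩ => by
      rw [hj] at h2; exact EquivLike.injective Φ h2 ▸ y.2⟩
  have eA := im (lam v (.of 0)) A (by rw [hA, ha, jl]) fun y h => by
    change star (v _) * y = y * star (v _)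
    change v _ * y = y * v _ at h
    rw [← hv.inv, ← mul_one (_ * y), ← hv.one, ← mul_inv_cancel (FreeGroup.of 0), hv.mul,
      ← mul_assoc, mul_assoc _ y, ← h, ← mul_assoc, ← hv.mul, inv_mul_cancel, hv.one, one_mul]
  have eB := im (lam v (.of 0) + star (lam v (.of 0)) + lam v (.of 1) + star (lam v (.of 1))) B
    (by simp only [hB, ha, hb, jl, map_add, map_star]) fun y h => by
      rwa [← StarMemClass.coe_star, show star (lam v (.of 0) + star (lam v (.of 0)) + lam v (.of 1)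
        + star (lam v (.of 1))) = lam v (.of 0) + star (lam v (.of 0)) + lam v (.of 1)
        + star (lam v (.of 1)) by simp only [star_add, star_star]; abel]
  have et := iso_of θ j j ji ji eM eM
  obtain ⟨θ', e1, e2⟩ := et
  refine ⟨θ', e1, ?_⟩
  rw [eA, eB]
  ext z
  constructor
  · rintro ⟨_, ⟨x, hx, rfl⟩, rfl⟩
    exact ⟨_, (n3 x).1 hx, (e2 x).symm⟩
  · rintro ⟨y, hy, rfl⟩
    have h := θ.apply_symm_apply y
    exact ⟨_, ⟨_, (n3 (θ.symm y)).2 (by rwa [h]), rfl⟩, (e2 _).trans (by rw [h])⟩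

end Pool.Agent.Results.MP_263241_an.Full
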